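import Mathlib
import Pool.Agent.Work.MP_c95a57_al.All

/-!
# A finitely presented group without the Morse local-to-global property

All notions of the problem are defined below. A map from an interval `[a, b]` to `X` is given by a
map `γ : ℝ → X`, of which only the values on `[a, b]` matter.
-/

namespace Pool.Agent.Results.MP_c95a57_al.FinitelyPresentedCounterexample

open Set

/-- `γ : [a, b] → X` is a `(lam, eps)`-quasi-geodesic:
`|s - t| / lam - eps ≤ d(γ s, γ t) ≤ lam |s - t| + eps` for all `s, t ∈ [a, b]`. -/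
def IsQuasiGeodesic {X : Type*} [MetricSpace X] (γ : ℝ → X) (a b lam eps : ℝ) : Prop :=
  ∀ s ∈ Icc a b, ∀ t ∈ Icc a b,
    |s - t| / lam - eps ≤ dist (γ s) (γ t) ∧ dist (γ s) (γ t) ≤ lam * |s - t| + eps

/-- `γ : [a, b] → X` is `M`-Morse: for all `lam ≥ 1`, `eps ≥ 0`, every `(lam, eps)`-quasi-geodesic
`η : [c, d] → X` with endpoints on `γ` stays in the closed `M(lam, eps)`-neighbourhood of `γ`. -/
def IsMorse {X : Type*} [MetricSpace X] (M : ℝ → ℝ → ℝ) (γ : ℝ → X) (a b : ℝ) : Prop :=
  ∀ lam eps : ℝ, 1 ≤ lam → 0 ≤ eps → ∀ (η : ℝ → X) (c d : ℝ), c ≤ d →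
    IsQuasiGeodesic η c d lam eps → η c ∈ γ '' Icc a b → η d ∈ γ '' Icc a b →
    ∀ t ∈ Icc c d, Metric.infDist (η t) (γ '' Icc a b) ≤ M lam eps

/-- `γ : [a, b] → X` is an `(L; M; lam, eps)`-local Morse quasi-geodesic: its restriction to every
`[s, t] ⊆ [a, b]` with `t - s ≤ L` is an `M`-Morse `(lam, eps)`-quasi-geodesic. -/
def IsLocalMorseQuasiGeodesic {X : Type*} [MetricSpace X] (L : ℝ) (M : ℝ → ℝ → ℝ) (lam eps : ℝ)
    (γ : ℝ → X) (a b : ℝ) : Prop :=
  ∀ s t : ℝ, a ≤ s → s ≤ t → t ≤ b → t - s ≤ L →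
    IsQuasiGeodesic γ s t lam eps ∧ IsMorse M γ s t

/-- The Morse local-to-global property of a metric space: for every Morse gauge `M` and all
`lam ≥ 1`, `eps ≥ 0` there are `L ≥ 0`, a Morse gauge `M'`, `lam' ≥ 1` and `eps' ≥ 0` such that
every `(L; M; lam, eps)`-local Morse quasi-geodesic is an `M'`-Morse `(lam', eps')`-quasi-geodesic.
-/
def HasMorseLocalToGlobal (X : Type*) [MetricSpace X] : Prop :=
  ∀ (M : ℝ → ℝ → ℝ), (∀ l e, 0 ≤ M l e) → ∀ lam eps : ℝ, 1 ≤ lam → 0 ≤ eps →
    ∃ (L : ℝ) (M' : ℝ → ℝ → ℝ) (lam' eps' : ℝ), 0 ≤ L ∧ (∀ l e, 0 ≤ M' l e) ∧ 1 ≤ lam' ∧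
      0 ≤ eps' ∧ ∀ (γ : ℝ → X) (a b : ℝ), a ≤ b → IsLocalMorseQuasiGeodesic L M lam eps γ a b →
        IsQuasiGeodesic γ a b lam' eps' ∧ IsMorse M' γ a b

/-- The word length of `g` with respect to `S`: the smallest `n` such that `g` is a product of `n`
elements of `S ∪ S⁻¹`. -/
noncomputable def wordLength {G : Type*} [Group G] (S : Set G) (g : G) : ℕ :=
  sInf {n | ∃ l : List G, l.length = n ∧ (∀ a ∈ l, a ∈ S ∨ a⁻¹ ∈ S) ∧ l.prod = g}

/-- The word metric, i.e. the distance of `g` and `h` in the Cayley graph with respect to `S`. -/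
noncomputable def wordDist {G : Type*} [Group G] (S : Set G) (g h : G) : ℕ :=
  wordLength S (g⁻¹ * h)

/-- `f` is a quasi-isometry from `G`, with the word metric with respect to `S`, to the metric space
`X`. For example `X` can be the Cayley graph (every edge being an interval of length one) and `f`
the inclusion of the set of vertices. -/
def IsQuasiIsometry {G : Type*} [Group G] (S : Set G) {X : Type*} [MetricSpace X] (f : G → X) :
    Prop :=
  ∃ K : ℝ, 1 ≤ K ∧ (∀ g h, (wordDist S g h : ℝ) / K - K ≤ dist (f g) (f h) ∧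
    dist (f g) (f h) ≤ K * wordDist S g h + K) ∧ ∀ x, ∃ g, dist x (f g) ≤ K

/-- There is a finitely presented group `G` such that, for every finite generating set `S` of `G`,
no metric space quasi-isometric to `G` with the word metric with respect to `S` (in particular not
the Cayley graph) has the Morse local-to-global property. -/
theorem result : ∃ (G : Type) (_ : Group G), Group.IsFinitelyPresented G ∧
    ∀ S : Set G, S.Finite → Subgroup.closure S = ⊤ →
      ∀ (X : Type) [MetricSpace X] (f : G → X), IsQuasiIsometry S f →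
        ¬ HasMorseLocalToGlobal X :=
  MLTG.final

end Pool.Agent.Results.MP_c95a57_al.FinitelyPresentedCounterexample
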